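import Mathlib
import Pool.Agent.H.MP_8013b9_lc.Main

set_option autoImplicit false

namespace Pool.Agent.Results.MP_8013b9_lc.Counter

open Pool.Agent.H.MP_8013b9_lc

theorem result : ∃ H : AddSubgroup UnitAddCircle, ∀ I : Set (Set ℕ), IsIdeal I → ∀ a : ℕ → ℤ,
    (H : Set UnitAddCircle) ≠ HStar a I :=
  main

end Pool.Agent.Results.MP_8013b9_lc.Counter
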